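import Pool.Agent.Mg.F71094f.G22fd6b

/-! Ramsey for finitely many relations, and greedy domination. -/

namespace Pool.Agent.MP_842ee2_lc.Res

open Finset

universe u

theorem ramsey_fn (K : ℕ) (κ : Type u) [Finite κ] (ar : κ → ℕ) :
    ∃ M : ℕ, ∀ f : (i : κ) → (Fin (ar i) → ℕ) → Prop, ∃ g : ℕ → ℕ, StrictMono g ∧ g K ≤ M ∧
      ∀ (i : κ) (s t : Fin (ar i) → ℕ), StrictMono s → StrictMono t → (∀ q, s q ≤ K) →
        (∀ q, t q ≤ K) → (f i (g ∘ s) ↔ f i (g ∘ t)) := by
  obtain ⟨r, hr⟩ := (Set.finite_range ar).bddAbove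
  obtain ⟨c, ⟨e⟩⟩ := Finite.exists_equiv_fin κ
  obtain ⟨M, hM⟩ := MP_71094f_lc.H37.finite_ramsey r K (Fin c → Prop)
  refine ⟨M, fun f => ?_⟩
  obtain ⟨g, hg, hK, h⟩ := hM fun l j => f (e.symm j) fun q => l.reverse.getD q 0
  refine ⟨g, hg, hK, fun i s t hs ht hs' ht' => ?_⟩
  obtain ⟨j, rfl⟩ := e.symm.surjective i
  have p1 : ∀ s : Fin (ar (e.symm j)) → ℕ, StrictMono s → (List.ofFn s).reverse.Pairwise (· > ·) :=
    fun s hs => List.pairwise_reverse.2 (List.pairwise_ofFn.2 fun _ _ h => hs h)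
  have p2 : ∀ s : Fin (ar (e.symm j)) → ℕ, (∀ q, s q ≤ K) → ∀ i ∈ (List.ofFn s).reverse, i ≤ K := by
    intro s hs i hi
    obtain ⟨q, rfl⟩ := (List.mem_ofFn' _ _).1 (List.mem_reverse.1 hi)
    exact hs q
  have p3 : ∀ s : Fin (ar (e.symm j)) → ℕ,
      (fun q : Fin (ar (e.symm j)) => ((List.ofFn s).reverse.map g).reverse.getD q 0) = g ∘ s := by
    intro s
    funext q
    simp [List.getD_eq_getElem?_getD]
  have := congrFun (h _ _ (p1 s hs) (p1 t ht) (p2 s hs') (p2 t ht') (by simp)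
    (by simpa using hr ⟨e.symm j, rfl⟩)) j
  simp only [p3] at this
  exact iff_of_eq this

variable {E : Type u}

open Classical in
theorem greedy_step (n : ℕ) (c : Set E → E → Prop) (X : Finset E) (hX : X.Nonempty)
    (h : ∀ e : Fin (n + 1) → E, (∀ i, e i ∈ X) → ∃ i, c {b | ∃ j, j ≠ i ∧ b = e j} (e i)) :
    ∃ σ : Fin n → E, (∀ i, σ i ∈ X) ∧
      X.card ≤ (n + 1) * (X.filter fun e => c (Set.range σ) e).card := by
  have hne : (Fintype.piFinset fun _ : Fin n => X).Nonempty := by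
    obtain ⟨x, hx⟩ := hX
    exact ⟨fun _ => x, Fintype.mem_piFinset.2 fun _ => hx⟩
  obtain ⟨σ, hσ, hmax⟩ := exists_max_image _
    (fun σ : Fin n → E => (X.filter fun e => c (Set.range σ) e).card) hne
  refine ⟨σ, Fintype.mem_piFinset.1 hσ, ?_⟩
  set G := (X.filter fun e => c (Set.range σ) e).card
  have hsub : (Fintype.piFinset fun _ : Fin (n + 1) => X) ⊆ univ.biUnion fun i : Fin (n + 1) =>
      (Fintype.piFinset fun _ : Fin n => X).biUnion fun τ =>
        (X.filter fun e => c (Set.range τ) e).image fun e => Fin.insertNth i e τ := by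
    intro e he
    have he' := Fintype.mem_piFinset.1 he
    obtain ⟨i, hi⟩ := h e he'
    refine mem_biUnion.2 ⟨i, mem_univ _, mem_biUnion.2 ⟨fun j => e (i.succAbove j),
      Fintype.mem_piFinset.2 fun j => he' _, mem_image.2 ⟨e i, mem_filter.2 ⟨he' i, ?_⟩, ?_⟩⟩⟩
    · convert hi using 1
      ext b
      constructor
      · rintro ⟨j, rfl⟩
        exact ⟨_, Fin.succAbove_ne i j, rfl⟩
      · rintro ⟨j, hj, rfl⟩
        obtain ⟨j', rfl⟩ := Fin.exists_succAbove_eq hj
        exact ⟨j', rfl⟩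
    · exact Fin.insertNth_self_removeNth i e
  have h1 := (card_le_card hsub).trans (card_biUnion_le_card_mul _ _ (X.card ^ n * G) fun i _ =>
    (card_biUnion_le_card_mul _ _ G fun τ hτ => card_image_le.trans (hmax τ hτ)).trans
      (by simp))
  simp only [Fintype.card_piFinset, prod_const, card_univ, Fintype.card_fin] at h1
  have h2 : X.card ^ n * X.card ≤ X.card ^ n * ((n + 1) * G) := by
    rw [← pow_succ]
    exact h1.trans (le_of_eq (by ring))
  exact Nat.le_of_mul_le_mul_left h2 (pow_pos hX.card_pos n)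

open Classical in
theorem greedy (n : ℕ) (c : Set E → E → Prop) (X : Finset E) (hX : X.Nonempty)
    (h : ∀ e : Fin (n + 1) → E, (∀ i, e i ∈ X) → ∃ i, c {b | ∃ j, j ≠ i ∧ b = e j} (e i))
    (t : ℕ) : ∃ σ : ℕ → Fin n → E,
      (X.filter fun e => ∀ a < t, ¬ c (Set.range (σ a)) e).card * (n + 1) ^ t ≤ n ^ t * X.card := by
  induction t with
  | zero => exact ⟨fun _ _ => hX.choose, by simp⟩
  | succ t ih =>
    obtain ⟨σ, hσ⟩ := ih
    set Y := X.filter fun e => ∀ a < t, ¬ c (Set.range (σ a)) e with hY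
    obtain ⟨τ, hτ⟩ : ∃ τ : Fin n → E,
        Y.card ≤ (n + 1) * (Y.filter fun e => c (Set.range τ) e).card := by
      rcases Y.eq_empty_or_nonempty with h0 | h0
      · exact ⟨σ 0, by simp [h0]⟩
      · obtain ⟨τ, -, hτ⟩ := greedy_step n c Y h0 fun e he => h e fun i => (mem_filter.1 (he i)).1
        exact ⟨τ, hτ⟩
    refine ⟨fun a => if a < t then σ a else τ, ?_⟩
    have h1 : (X.filter fun e => ∀ a < t + 1, ¬ c (Set.range (if a < t then σ a else τ)) e) ⊆
        Y.filter fun e => ¬ c (Set.range τ) e := by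
      intro e he
      obtain ⟨h1, h2⟩ := mem_filter.1 he
      refine mem_filter.2 ⟨mem_filter.2 ⟨h1, fun a ha => ?_⟩, ?_⟩
      · simpa only [if_pos ha] using h2 a (by omega)
      · simpa only [lt_irrefl, if_false] using h2 t (by omega)
    have h2 := card_filter_add_card_filter_not (s := Y) fun e => c (Set.range τ) e
    have h3 := card_le_card h1
    generalize (X.filter fun e => ∀ a < t + 1,
      ¬ c (Set.range (if a < t then σ a else τ)) e).card = z at h3 ⊢
    have h4 : z * (n + 1) ≤ n * Y.card := by nlinarith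
    calc z * (n + 1) ^ (t + 1) = z * (n + 1) * (n + 1) ^ t := by ring
      _ ≤ n * Y.card * (n + 1) ^ t := Nat.mul_le_mul_right _ h4
      _ = n * (Y.card * (n + 1) ^ t) := by ring
      _ ≤ n * (n ^ t * X.card) := Nat.mul_le_mul_left _ hσ
      _ = n ^ (t + 1) * X.card := by ring

theorem exists_rounds (n k : ℕ) : ∃ t : ℕ, n ^ t * (k * k) < (n + 1) ^ t ∧
    (t : ℝ) ≤ (2 * n + 4) * Real.log (k + 1) := by
  have hk : (0 : ℝ) ≤ k := Nat.cast_nonneg k
  have hn : (0 : ℝ) ≤ n := Nat.cast_nonneg n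
  have hl : 0 ≤ Real.log (k + 1) := Real.log_nonneg (by linarith)
  refine ⟨⌈2 * ((n : ℝ) + 1) * Real.log (k + 1)⌉₊, ?_, ?_⟩
  · have h1 := Nat.le_ceil (2 * ((n : ℝ) + 1) * Real.log (k + 1))
    generalize ⌈2 * ((n : ℝ) + 1) * Real.log (k + 1)⌉₊ = t at h1
    have h2 : (n : ℝ) ≤ (n + 1) * Real.exp (-(1 / (n + 1))) := by
      have := Real.add_one_le_exp (-(1 / ((n : ℝ) + 1)))
      calc (n : ℝ) = (n + 1) * (-(1 / (n + 1)) + 1) := by field_simp; ring
        _ ≤ _ := by gcongr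
    have h3 : Real.exp (-(1 / ((n : ℝ) + 1))) ^ t * ((k + 1) * (k + 1)) ≤ 1 := by
      rw [← Real.exp_nat_mul, ← Real.exp_log (by linarith : (0 : ℝ) < k + 1), ← Real.exp_add,
        ← Real.exp_add, Real.exp_le_one_iff]
      have : 2 * Real.log (k + 1) ≤ t * (1 / ((n : ℝ) + 1)) := by
        rw [mul_one_div, le_div_iff₀ (by linarith)]
        linarith
      linarith
    have h4 : (n : ℝ) ^ t * (k * k) < (n + 1) ^ t := by
      calc (n : ℝ) ^ t * (k * k) ≤ ((n + 1) * Real.exp (-(1 / (n + 1)))) ^ t * (k * k) := by gcongr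
        _ < ((n + 1) * Real.exp (-(1 / (n + 1)))) ^ t * ((k + 1) * (k + 1)) := by
          refine mul_lt_mul_of_pos_left (by nlinarith) (by positivity)
        _ = (n + 1) ^ t * (Real.exp (-(1 / ((n : ℝ) + 1))) ^ t * ((k + 1) * (k + 1))) := by
          rw [mul_pow]; ring
        _ ≤ (n + 1) ^ t * 1 := by gcongr
        _ = _ := mul_one _
    exact_mod_cast h4
  · rcases Nat.eq_zero_or_pos k with rfl | hpos
    · simp
    · have h1 : (1 : ℝ) ≤ k := by exact_mod_cast hpos
      have h2 : Real.log 2 ≤ Real.log (k + 1) := Real.log_le_log (by norm_num) (by linarith)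
      have h3 := Real.log_two_gt_d9
      have h4 := Nat.ceil_lt_add_one (a := 2 * ((n : ℝ) + 1) * Real.log (k + 1)) (by positivity)
      nlinarith

end Pool.Agent.MP_842ee2_lc.Res
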