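import Pool.Agent.MP_842ee2_lc.Defs

/-! Indiscernible sequences and the arrays forbidden in resilient theories. -/

namespace Pool.Agent.MP_842ee2_lc

open FirstOrder FirstOrder.Language

universe u v w

variable {α β : Type}

/-- The sequence of tuples `a` is indiscernible over the set `B`. -/
def Indisc (L : FirstOrder.Language.{u, v}) {M : Type w} [L.Structure M] (B : Set M)
    (a : ℕ → β → M) : Prop :=
  ∀ (n m : ℕ) (χ : L.Formula ((Fin n × β) ⊕ Fin m)) (b : Fin m → M), (∀ i, b i ∈ B) →
    ∀ s t : Fin n → ℕ, StrictMono s → StrictMono t →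
      (χ.Realize (Sum.elim (fun p => a (s p.1) p.2) b) ↔
        χ.Realize (Sum.elim (fun p => a (t p.1) p.2) b))

/-- Some model of `T` has an array with consistent first column and `m`-inconsistent rows, each
row being indiscernible over the first entries of the other rows. -/
def HasStar {L : FirstOrder.Language.{u, v}} (T : L.Theory) (φ : L.Formula (α ⊕ β)) (m : ℕ) :
    Prop :=
  ∃ (M : Theory.ModelType.{u, v, w} T) (a : ℕ → ℕ → β → M),
    Consistent φ M (Set.range fun i => a i 0) ∧
      (∀ i, ∀ s : Finset ℕ, s.card = m → ¬ Consistent φ M (a i '' s)) ∧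
        ∀ i, Indisc L {c | ∃ j, j ≠ i ∧ ∃ y, c = a j 0 y} (a i)

end Pool.Agent.MP_842ee2_lc
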