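import Pool.Agent.MP_842ee2_lc.Model
import Pool.Agent.MP_842ee2_lc.Res.Defs
import Pool.Agent.MP_842ee2_lc.Res.Comb

/-! Finite forms of dividing, compactness, and the counting bound. -/

namespace Pool.Agent.MP_842ee2_lc.Res

open FirstOrder FirstOrder.Language Filter

universe u v w

variable {L : FirstOrder.Language.{u, v}} {α β γ : Type}

/-- A formula together with the coordinates at which its parameters are read. -/
def DD (L : FirstOrder.Language.{u, v}) (γ : Type) : Type (max u v) :=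
  Σ n : ℕ, Σ m : ℕ, L.Formula ((Fin n × γ) ⊕ Fin m) × (Fin m → γ)

def val {M : Type w} [L.Structure M] (δ : DD L γ) (a : ℕ → γ → M) (s : Fin δ.1 → ℕ)
    (b : Fin δ.2.1 → γ → M) : Prop :=
  δ.2.2.1.Realize (Sum.elim (fun p => a (s p.1) p.2) fun i => b i (δ.2.2.2 i))

/-- Dividing over `B`, for finitely many formulas and a sequence of finite length. -/
def Dv (ψ : L.Formula (α ⊕ γ)) (Δ : Finset (DD L γ)) (N : ℕ) {M : Type w} [L.Structure M]
    (B : Set (γ → M)) (e : γ → M) : Prop :=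
  ∃ a : ℕ → γ → M, a 0 = e ∧
    (∀ i j, i < j → j ≤ N →
      ¬ ∃ x : α → M, ψ.Realize (Sum.elim x (a i)) ∧ ψ.Realize (Sum.elim x (a j))) ∧
    ∀ δ ∈ Δ, ∀ b : Fin δ.2.1 → γ → M, (∀ i, b i ∈ B) → ∀ s t : Fin δ.1 → ℕ, StrictMono s →
      StrictMono t → (∀ q, s q ≤ N) → (∀ q, t q ≤ N) → (val δ a s b ↔ val δ a t b)

theorem Dv.mono {ψ : L.Formula (α ⊕ γ)} {Δ : Finset (DD L γ)} {N : ℕ} {M : Type w} [L.Structure M]
    {B B' : Set (γ → M)} {e : γ → M} (h : Dv ψ Δ N B e) (hB : B' ⊆ B) : Dv ψ Δ N B' e := by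
  obtain ⟨a, h1, h2, h3⟩ := h
  exact ⟨a, h1, h2, fun δ hδ b hb => h3 δ hδ b fun i => hB (hb i)⟩

theorem fin_star (T : L.Theory) (ψ : L.Formula (α ⊕ γ)) (h : ¬ HasStar.{u, v, max u v w} T ψ 2) :
    ∃ (Δ : Finset (DD L γ)) (N : ℕ), ∀ (M : Theory.ModelType.{u, v, max u v w} T)
      (e : Fin (N + 1) → γ → M), (∃ x : α → M, ∀ i, ψ.Realize (Sum.elim x (e i))) →
        ∃ i, ¬ Dv ψ Δ N {b | ∃ j, j ≠ i ∧ b = e j} (e i) := by
  classical
  by_contra hc
  simp only [not_exists, not_forall, not_not, exists_prop] at hc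
  apply h
  choose M e hx hd using fun I : Finset (DD L γ) × ℕ => hc I.1 I.2
  choose x hx using hx
  choose c hc0 hc1 hc2 using hd
  let U : Ultrafilter (Finset (DD L γ) × ℕ) := Ultrafilter.of atTop
  have hU : ∀ I₀ : Finset (DD L γ) × ℕ, ∀ᶠ I in U, I₀ ≤ I := fun I₀ =>
    Ultrafilter.of_le atTop (eventually_ge_atTop I₀)
  have hev : ∀ k : ℕ, ∀ᶠ I : Finset (DD L γ) × ℕ in U, k ≤ I.2 := fun k =>
    (hU (∅, k)).mono fun I hI => hI.2
  let r : ∀ I : Finset (DD L γ) × ℕ, ℕ → Fin (I.2 + 1) := fun I i =>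
    if h : i < I.2 + 1 then ⟨i, h⟩ else 0
  let P := (U : Filter (Finset (DD L γ) × ℕ)).Product fun I => (M I : Type (max u v w))
  have : P ⊨ T := ⟨fun σ hσ => (Ultraproduct.sentence_realize σ).2
    (Eventually.of_forall fun n => Theory.realize_sentence_of_mem T hσ)⟩
  have los : ∀ {ι κ : Type} (χ : L.Formula (ι ⊕ κ)) (f : ι → ∀ I, M I) (g : κ → ∀ I, M I),
      χ.Realize (Sum.elim (fun z => (f z : P)) fun z => (g z : P)) ↔
        ∀ᶠ I in U, χ.Realize (Sum.elim (fun z => f z I) fun z => g z I) := by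
    intro ι κ χ f g
    have h1 := Ultraproduct.realize_formula_cast (u := U) χ (Sum.elim f g)
    have h2 : (fun z => ((Sum.elim f g z : ∀ I, M I) : P)) =
        Sum.elim (fun z => (f z : P)) fun z => (g z : P) := by
      ext (z | z) <;> rfl
    have h3 : ∀ I, (fun z => Sum.elim f g z I) = Sum.elim (fun z => f z I) fun z => g z I := by
      intro I
      ext (z | z) <;> rfl
    rw [h2] at h1
    simpa only [h3] using h1
  let a : ℕ → ℕ → γ → ∀ I, M I := fun i j y I => c I (r I i) j y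
  let A : ℕ → ℕ → γ → P := fun i j y => (a i j y : P)
  have hrow : ∀ i j j', j < j' → ¬ Consistent ψ P {A i j, A i j'} := by
    intro i j j' hj hcon
    obtain ⟨z, h1, h2⟩ := consistent_pair.1 hcon
    have hz : ∀ y, ∃ f : ∀ I, M I, (f : P) = z y := fun y => Quotient.exists_rep (z y)
    choose f hf using hz
    have hzf : z = fun y => (f y : P) := funext fun y => (hf y).symm
    rw [hzf] at h1 h2
    obtain ⟨I, ⟨h1, h2⟩, h3⟩ :=
      ((((los ψ f (a i j)).1 h1).and ((los ψ f (a i j')).1 h2)).and (hev j')).exists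
    exact hc1 I (r I i) j j' hj h3 ⟨_, h1, h2⟩
  refine ⟨Theory.ModelType.of T P, A, fun q hq => ?_, fun i s hs => ?_, fun i => ?_⟩
  · refine ⟨fun z => ((fun I => x I z : ∀ I, M I) : P), fun b hb => ?_⟩
    obtain ⟨i, rfl⟩ := hq hb
    refine (los ψ (fun z I => x I z) (a i 0)).2 (Eventually.of_forall fun I => ?_)
    have := hx I (r I i)
    rw [← hc0 I (r I i)] at this
    exact this
  · obtain ⟨j, j', hjj, rfl⟩ := Finset.card_eq_two.1 hs
    have h0 : ¬ Consistent ψ P (A i '' (({j, j'} : Finset ℕ) : Set ℕ)) := by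
      rw [Finset.coe_pair, Set.image_pair]
      rcases lt_or_gt_of_ne hjj with h | h
      · exact hrow i j j' h
      · rw [Set.pair_comm]
        exact hrow i j' j h
    exact h0
  · intro n m χ b hb s t hs ht
    choose j hj y hy using hb
    obtain rfl : b = fun k => A (j k) 0 (y k) := funext hy
    refine (los χ (fun p => a i (s p.1) p.2) fun k => a (j k) 0 (y k)).trans
      (Iff.trans (eventually_congr ?_)
        (los χ (fun p => a i (t p.1) p.2) fun k => a (j k) 0 (y k)).symm)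
    let δ : DD L γ := ⟨n, m, χ, y⟩
    filter_upwards [hU ({δ}, i), eventually_all.2 fun k => hev (j k),
      eventually_all.2 fun q => hev (s q), eventually_all.2 fun q => hev (t q)] with I h1 h2 h3 h4
    have h5 : i < I.2 + 1 := Nat.lt_succ_of_le h1.2
    refine hc2 I (r I i) δ (h1.1 (Finset.mem_singleton_self _)) (fun k => c I (r I (j k)) 0)
      (fun k => ⟨r I (j k), ?_, hc0 I _⟩) s t hs ht h3 h4
    have h6 : j k < I.2 + 1 := Nat.lt_succ_of_le (h2 k)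
    simp only [r, dif_pos h5, dif_pos h6, ne_eq, Fin.mk.injEq]
    exact hj k

/-- The parameter of `φ(x, a) ∧ φ(x, b)`. -/
def pr {M : Type w} (a b : β → M) : Fin 2 × β → M := fun q => ![a, b] q.1 q.2

theorem realize_pr {φ : L.Formula (α ⊕ β)} {M : Type w} [L.Structure M] {x : α → M} {a b : β → M} :
    (conj φ 2).Realize (Sum.elim x (pr a b)) ↔
      φ.Realize (Sum.elim x a) ∧ φ.Realize (Sum.elim x b) := by
  rw [realize_conj, Fin.forall_fin_two]
  rfl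

theorem fibre_seq (φ : L.Formula (α ⊕ β)) (Δ : Finset (DD L (Fin 2 × β))) (N k : ℕ) (ι : Type)
    [Finite ι] : ∃ C : ℕ, ∀ (M : Type w) [L.Structure M] (σ : ι → Fin 2 × β → M)
      (X : ℕ → Fin k → β → M),
      (∀ p q, p < q → q ≤ C → ∃ i j, ¬ Consistent φ M {X p i, X q j}) →
      ∃ p ≤ C, ∃ i j, Dv (conj φ 2) Δ N (Set.range σ) (pr (X p i) (X p j)) := by
  classical
  obtain ⟨C, hC⟩ := ramsey_fn (N + 1)
    ((Fin k × Fin k) × Option (Σ δ : Δ, Fin δ.1.2.1 → ι))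
    (fun z => z.2.elim 2 fun d => d.1.1.1)
  refine ⟨C, fun M _ σ X hX => ?_⟩
  obtain ⟨g, hg, hK, h⟩ := hC fun z => match z with
    | (e, none) => fun s => ¬ Consistent φ M {X (s (0 : Fin 2)) e.1, X (s (1 : Fin 2)) e.2}
    | (e, some d) => fun s => val d.1.1 (fun p => pr (X p e.1) (X p e.2)) s fun i => σ (d.2 i)
  obtain ⟨i, j, hij⟩ := hX (g 0) (g 1) (hg one_pos) ((hg.monotone (by omega)).trans hK)
  refine ⟨g 0, (hg.monotone (by omega)).trans hK, i, j,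
    fun p => pr (X (g p) i) (X (g p) j), rfl, fun p q hpq hq hx => ?_, ?_⟩
  · have m1 : ∀ p q : ℕ, p < q → StrictMono (![p, q] : Fin 2 → ℕ) := fun p q h =>
      Fin.strictMono_iff_lt_succ.2 fun l => by
        obtain rfl : l = 0 := Subsingleton.elim _ _
        exact h
    have := (h ((i, j), none) ![0, 1] ![p, q] (m1 _ _ one_pos) (m1 _ _ hpq)
      (Fin.forall_fin_two.2 ⟨Nat.zero_le _, Nat.succ_le_succ (Nat.zero_le _)⟩)
      (Fin.forall_fin_two.2 ⟨(by omega : p ≤ N + 1), (by omega : q ≤ N + 1)⟩)).1 hij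
    obtain ⟨x, h1, h2⟩ := hx
    exact this (consistent_pair.2 ⟨x, (realize_pr.1 h1).1, (realize_pr.1 h2).2⟩)
  · intro δ hδ b hb s t hs ht hs' ht'
    choose d hd using hb
    obtain rfl : b = fun l => σ (d l) := funext fun l => (hd l).symm
    exact h ((i, j), some ⟨⟨δ, hδ⟩, d⟩) s t hs ht (fun q => (hs' q).trans N.le_succ)
      fun q => (ht' q).trans N.le_succ

theorem fibre (φ : L.Formula (α ⊕ β)) (Δ : Finset (DD L (Fin 2 × β))) (N k : ℕ) (ι : Type)
    [Finite ι] : ∃ C : ℕ, ∀ (M : Type w) [L.Structure M] (σ : ι → Fin 2 × β → M)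
      (G : Finset (Finset (β → M))), (∀ p ∈ G, p.Nonempty ∧ p.card ≤ k) →
      (∀ p ∈ G, ∀ q ∈ G, p ≠ q → ∃ a ∈ p, ∃ b ∈ q, ¬ Consistent φ M {a, b}) →
      (∀ p ∈ G, ∀ a ∈ p, ∀ b ∈ p, ¬ Dv (conj φ 2) Δ N (Set.range σ) (pr a b)) → G.card ≤ C := by
  classical
  obtain ⟨C, hC⟩ := fibre_seq.{u, v, w} φ Δ N k ι
  refine ⟨C, fun M _ σ G h1 h2 h3 => ?_⟩
  by_contra hlt
  have hx : ∀ p : G, ∃ x : Fin k → β → M, ∀ a, a ∈ p.1 ↔ ∃ i, x i = a := by
    rintro ⟨p, hp⟩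
    have : Nonempty p := (h1 p hp).1.to_subtype
    obtain ⟨e⟩ : Nonempty (p ↪ Fin k) := Function.Embedding.nonempty_of_card_le
      (by rw [Fintype.card_coe, Fintype.card_fin]; exact (h1 p hp).2)
    refine ⟨fun i => (Function.invFun e i).1, fun a => ⟨fun ha => ⟨e ⟨a, ha⟩, ?_⟩, ?_⟩⟩
    · simp only [Function.leftInverse_invFun e.injective ⟨a, ha⟩]
    · rintro ⟨i, rfl⟩
      exact (Function.invFun e i).2
  choose x hx using hx
  let P : ℕ → G := fun p => G.equivFin.symm ⟨min p C, by omega⟩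
  obtain ⟨p, -, i, j, hd⟩ := hC M σ (fun p => x (P p)) fun p q hpq hq => by
    obtain ⟨a, ha, b, hb, hab⟩ := h2 _ (P p).2 _ (P q).2 fun e => by
      have := congrArg Fin.val (G.equivFin.symm.injective (Subtype.ext e))
      simp only at this
      omega
    obtain ⟨i, rfl⟩ := (hx _ a).1 ha
    obtain ⟨j, rfl⟩ := (hx _ b).1 hb
    exact ⟨i, j, hab⟩
  exact h3 _ (P p).2 _ ((hx _ _).2 ⟨i, rfl⟩) _ ((hx _ _).2 ⟨j, rfl⟩) hd

theorem count (T : L.Theory) (φ : L.Formula (α ⊕ β))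
    (h : ¬ HasStar.{u, v, max u v w} T (conj φ 2) 2) : ∃ n : ℕ, ∀ k t : ℕ,
      n ^ t * (k * k) < (n + 1) ^ t → ∃ C : ℕ, ∀ (M : Theory.ModelType.{u, v, max u v w} T)
        (A : Finset (β → M)) (F : Finset (Finset (β → M))), A.Nonempty → IsFamily φ M k A F →
          F.card ≤ C * A.card ^ (2 * n * t) := by
  classical
  obtain ⟨Δ, n, hn⟩ := fin_star.{u, v, w} T _ h
  refine ⟨n, fun k t hkt => ?_⟩
  obtain ⟨C, hC⟩ := fibre.{u, v, max u v w} φ Δ n k (Fin t × Fin n)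
  refine ⟨C + 1, fun M A F hA hF => ?_⟩
  have hp : 1 ≤ A.card ^ (2 * n * t) := Nat.one_le_pow _ _ hA.card_pos
  by_cases h1 : F.card ≤ 1
  · nlinarith
  have hne : ∀ p ∈ F, p.Nonempty := by
    intro p hp
    obtain ⟨q, hq, hqp⟩ := Finset.exists_mem_ne (not_le.1 h1) p
    obtain ⟨a, ha, -⟩ := hF.2 p hp q hq hqp.symm
    exact ⟨a, ha⟩
  let π : A × A → Fin 2 × β → M := fun e => pr e.1.1 e.2.1
  have hσ : ∀ p, ∃ σ : Fin t × Fin n → A × A, p ∈ F → ∀ a ∈ p, ∀ b ∈ p,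
      ¬ Dv (conj φ 2) Δ n (Set.range (π ∘ σ)) (pr a b) := by
    intro p
    by_cases hp : p ∈ F
    swap
    · obtain ⟨a, ha⟩ := hA
      exact ⟨fun _ => (⟨a, ha⟩, ⟨a, ha⟩), fun h => absurd h hp⟩
    obtain ⟨hpA, hpk, hcon⟩ := hF.1 p hp
    obtain ⟨z, hz⟩ := hcon p subset_rfl
    let X : Finset (A × A) := Finset.univ.filter fun e => e.1.1 ∈ p ∧ e.2.1 ∈ p
    have hX : ∀ e, e ∈ X ↔ e.1.1 ∈ p ∧ e.2.1 ∈ p := fun e => by simp [X]
    have hXc : X.card ≤ k * k := by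
      refine le_trans ?_ (Nat.mul_le_mul hpk hpk)
      rw [← Finset.card_product]
      refine Finset.card_le_card_of_injOn (fun e => (e.1.1, e.2.1))
        (fun e he => Finset.mem_coe.2 (Finset.mem_product.2 ((hX e).1 he))) fun e _ e' _ h => ?_
      exact Prod.ext (Subtype.ext (Prod.mk.inj h).1) (Subtype.ext (Prod.mk.inj h).2)
    obtain ⟨a₀, ha₀⟩ := hne p hp
    obtain ⟨σ, hσ⟩ := greedy n (fun B e => ¬ Dv (conj φ 2) Δ n (π '' B) (π e)) X
      ⟨(⟨a₀, hpA ha₀⟩, ⟨a₀, hpA ha₀⟩), (hX _).2 ⟨ha₀, ha₀⟩⟩ (fun e he => by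
        obtain ⟨i, hi⟩ := hn M (fun i => π (e i)) ⟨z, fun i =>
          realize_pr.2 ⟨hz _ ((hX _).1 (he i)).1, hz _ ((hX _).1 (he i)).2⟩⟩
        exact ⟨i, fun d => hi (d.mono fun b ⟨j, hj, hb⟩ => ⟨e j, ⟨j, hj, rfl⟩, hb.symm⟩)⟩) t
    refine ⟨fun l => σ l.1 l.2, fun _ a ha b hb hd => ?_⟩
    have h2 := (Nat.le_mul_of_pos_left _ (Finset.card_pos.2
      ⟨(⟨a, hpA ha⟩, ⟨b, hpA hb⟩), (@Finset.mem_filter _ _ (_) _ _).2 ⟨(hX _).2 ⟨ha, hb⟩,
        fun s hs => not_not.2 (hd.mono ?_)⟩⟩)).trans hσ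
    · exact absurd (h2.trans (Nat.mul_le_mul_left _ hXc)) (not_le.2 hkt)
    · rintro _ ⟨_, ⟨i, rfl⟩, rfl⟩
      exact ⟨(⟨s, hs⟩, i), rfl⟩
  choose σ hσ using hσ
  have h2 := Finset.card_le_mul_card_image_of_maps_to (s := F) (t := Finset.univ) (f := σ)
    (fun _ _ => Finset.mem_univ _) C fun τ _ => hC M (π ∘ τ) _
      (fun p hp => ⟨hne p (Finset.mem_filter.1 hp).1, (hF.1 p (Finset.mem_filter.1 hp).1).2.1⟩)
      (fun p hp q hq => hF.2 p (Finset.mem_filter.1 hp).1 q (Finset.mem_filter.1 hq).1)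
      fun p hp => (Finset.mem_filter.1 hp).2 ▸ hσ p (Finset.mem_filter.1 hp).1
  simp only [Finset.card_univ, Fintype.card_fun, Fintype.card_prod, Fintype.card_coe,
    Fintype.card_fin] at h2
  have h3 : (A.card * A.card) ^ (t * n) = A.card ^ (2 * n * t) := by
    rw [← sq, ← pow_mul]
    congr 1
    ring
  rw [h3] at h2
  exact h2.trans (Nat.mul_le_mul_right _ C.le_succ)

end Pool.Agent.MP_842ee2_lc.Res
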